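import Pool.Agent.X61.RI.Fermat

/-!
# The Fermat equations of all exponents over a number field and an infinite random set of primes

Let `K` be a number field, `S₀` a finite set of primes of `K` and `T` a random set of primes: the
events `v ∈ T` are independent and of probability at most `N(v) ^ (-τ)`. (For probabilities
`N(v) ^ (-τ)` with `τ ≤ 1` the set `T` is infinite.) For a solution of `a ^ n + b ^ n + c ^ n = 0` in
nonzero elements of `K` let `N` be the conductor of `(a : b : c)` (the product of the norms of the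
primes at which the absolute values of `a, b, c` are not all equal) and `N_T` its part composed of
the primes of `S₀ ∪ T`.

There is `ν > 0`, which depends on `K` only, such that, if `κ τ > 2/3 - ν`, with probability one

1. there are, for all exponents `n ≥ 4` together, only finitely many points `(a : b : c)` on the
   Fermat curves of exponent `n` over `K` with `N_T ≥ N ^ κ`, except for the points composed of
   roots of unity;
2. if `K` does not contain the primitive cube roots of unity, there is `B` such that for every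
   `n > B` all solutions of `a ^ n + b ^ n + c ^ n = 0` satisfy `N_T < N ^ κ`; for `κ = 1`: no solution is
   composed of primes of `S₀ ∪ T`.
-/

set_option autoImplicit false

namespace Pool.Agent.Results.MP_ef6a16_nt.LargeRandomPart

open NumberField IsDedekindDomain MeasureTheory ProbabilityTheory
open Pool.Agent.X61.RI (RootOfUnity)

section Defs

variable {K : Type} [Field K] [NumberField K]

/-- the absolute norm of a prime -/
noncomputable def norm (v : HeightOneSpectrum (𝓞 K)) : ℝ := (Ideal.absNorm v.asIdeal : ℝ)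

/-- the primes at which the absolute values of the coordinates are not all equal -/
def supp (a : Fin 3 → K) : Set (HeightOneSpectrum (𝓞 K)) :=
  {v | ∃ i j, v.valuation K (a i) ≠ v.valuation K (a j)}

/-- the logarithm of the part of the conductor of `a` composed of the primes of `U` -/
noncomputable def logN (U : Set (HeightOneSpectrum (𝓞 K))) (a : Fin 3 → K) : ℝ :=
  ∑ᶠ (v : HeightOneSpectrum (𝓞 K)) (_ : v ∈ supp a ∩ U), Real.log (norm v)

end Defs

open Pool.Agent.H691R3 Pool.Agent.TH876.Loc Pool.Agent.Y911.RR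

variable {K : Type} [Field K] [NumberField K]

theorem mem_supp {n : ℕ} (hn : 4 ≤ n) {x y : K} (hx : x ≠ 0) (hy : y ≠ 0)
    (h : x ^ n + y ^ n + 1 = 0) (v : Pr K) : v ∈ supp ![x, y, 1] ↔ v ∈ sp (x ^ n) := by
  rw [mem_sp (Pool.Agent.X61.RI.pow_Pt hx hy h)]
  have e0 : v.valuation K ((![x, y, 1] : Fin 3 → K) 0) = v.valuation K x := rfl
  have e1 : v.valuation K ((![x, y, 1] : Fin 3 → K) 1) = v.valuation K y := rfl
  have e2 : v.valuation K ((![x, y, 1] : Fin 3 → K) 2) = 1 := map_one _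
  have hpow : ∀ z : K, fv v (z ^ n) = 1 ↔ v.valuation K z = 1 := by
    intro z
    rw [val_eq_one, map_pow]
    exact pow_eq_one_iff_of_nonneg ((fv v).nonneg z) (by omega)
  have e3 : fv v (x ^ n + 1) = fv v (y ^ n) := by
    rw [← (fv v).map_neg (y ^ n)]
    congr 1
    linear_combination h
  rw [e3, hpow, hpow]
  constructor
  · rintro ⟨i, j, hij⟩ ⟨h1, h2⟩
    apply hij
    have : ∀ i, v.valuation K ((![x, y, 1] : Fin 3 → K) i) = 1 := by
      intro i
      fin_cases i
      · exact e0.trans h1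
      · exact e1.trans h2
      · exact e2
    rw [this i, this j]
  · intro h
    by_cases h1 : v.valuation K x = 1
    · refine ⟨1, 2, ?_⟩
      rw [e1, e2]
      exact fun h2 => h ⟨h1, h2⟩
    · refine ⟨0, 2, ?_⟩
      rw [e0, e2]
      exact h1

theorem logN_eq {n : ℕ} (hn : 4 ≤ n) {x y : K} (hx : x ≠ 0) (hy : y ≠ 0)
    (h : x ^ n + y ^ n + 1 = 0) (U : Set (Pr K)) {s : Finset (Pr K)}
    (hs : ∀ v, v ∈ s ↔ v ∈ sp (x ^ n) ∧ v ∈ U) : logN U ![x, y, 1] = Real.log (nn s) := by
  unfold logN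
  rw [Pool.Agent.TH876.KR.log_nn, ← finsum_mem_coe_finset]
  refine finsum_mem_congr ?_ fun v _ => rfl
  ext v
  rw [Set.mem_inter_iff, mem_supp hn hx hy h, Finset.mem_coe, hs]

theorem large_iff {n : ℕ} (hn : 4 ≤ n) {x y : K} (hx : x ≠ 0) (hy : y ≠ 0)
    (h : x ^ n + y ^ n + 1 = 0) {κ : ℝ} (U : Set (Pr K)) {s : Finset (Pr K)}
    (hs : ∀ v, v ∈ s ↔ v ∈ sp (x ^ n) ∧ v ∈ U) :
    κ * logN Set.univ ![x, y, 1] ≤ logN U ![x, y, 1] ↔ (nn (sp (x ^ n))) ^ κ ≤ nn s := by
  rw [logN_eq hn hx hy h Set.univ (s := sp (x ^ n)) (fun v => by simp), logN_eq hn hx hy h U hs,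
    ← Real.log_rpow (nn_pos _), Real.log_le_log_iff (Real.rpow_pos_of_pos (nn_pos _) _) (nn_pos _)]

theorem supp_scale {a b c : K} (hc : c ≠ 0) :
    supp ![a / c, b / c, 1] = supp ![a, b, c] := by
  ext v
  have hv : v.valuation K c ≠ 0 := (Valuation.ne_zero_iff _).2 hc
  have e : ∀ i, v.valuation K ((![a / c, b / c, 1] : Fin 3 → K) i) =
      v.valuation K ((![a, b, c] : Fin 3 → K) i) / v.valuation K c := by
    intro i
    fin_cases i
    · exact map_div₀ _ _ _
    · exact map_div₀ _ _ _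
    · show v.valuation K 1 = v.valuation K c / v.valuation K c
      rw [map_one, div_self hv]
  constructor
  · rintro ⟨i, j, hij⟩
    refine ⟨i, j, fun h => hij ?_⟩
    rw [e, e, h]
  · rintro ⟨i, j, hij⟩
    refine ⟨i, j, fun h => hij ?_⟩
    rw [e, e] at h
    exact (div_left_inj' hv).1 h

/-- **The Fermat equations of all exponents and an infinite random set of primes.** Let `K` be a
number field. There is `ν > 0` such that for every finite set `S₀` of primes of `K`, all `τ ≥ 0` and `κ`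
with `κ τ > 2/3 - ν` and every random set `T = {v | ω ∈ E v}` of primes, where the events `E v` are
independent, of probability at most `N(v) ^ (-τ)`, the following holds with probability one.

(1) There are only finitely many `(n, x, y)` with `n ≥ 4`, `x, y` nonzero elements of `K`, not both
roots of unity, and `x ^ n + y ^ n + 1 = 0`, for which the part composed of primes of `S₀ ∪ T` of the
conductor `N` of `(x : y : 1)` is at least `N ^ κ`.

(2) If `K` does not contain the primitive cube roots of unity, there is `B` such that for every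
`n > B` and all nonzero `a, b, c ∈ K` with `a ^ n + b ^ n + c ^ n = 0` this part of the conductor `N` of
`(a : b : c)` is less than `N ^ κ`. -/
theorem result (K : Type) [Field K] [NumberField K] : ∃ ν : ℝ, 0 < ν ∧
    ∀ (S₀ : Set (HeightOneSpectrum (𝓞 K))), S₀.Finite → ∀ τ κ : ℝ, 0 ≤ τ → 2 / 3 - ν < κ * τ →
    ∀ (Ω : Type) [MeasurableSpace Ω] (μ : Measure Ω) (E : HeightOneSpectrum (𝓞 K) → Set Ω),
    iIndepSet E μ → (∀ v, μ (E v) ≤ ENNReal.ofReal (norm v ^ (-τ))) →
    ∀ᵐ ω ∂μ,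
      {p : ℕ × K × K | 4 ≤ p.1 ∧ (p.2.1 ≠ 0 ∧ p.2.2 ≠ 0) ∧
        p.2.1 ^ p.1 + p.2.2 ^ p.1 + 1 = 0 ∧
        ¬ (RootOfUnity p.2.1 ∧ RootOfUnity p.2.2) ∧
        κ * logN Set.univ ![p.2.1, p.2.2, 1] ≤
          logN (S₀ ∪ {v | ω ∈ E v}) ![p.2.1, p.2.2, 1]}.Finite ∧
      ((∀ z : K, z ^ 2 + z + 1 ≠ 0) → ∃ B : ℕ, ∀ n : ℕ, B < n → ∀ a b c : K, a ≠ 0 → b ≠ 0 →
        c ≠ 0 → a ^ n + b ^ n + c ^ n = 0 →
        logN (S₀ ∪ {v | ω ∈ E v}) ![a, b, c] < κ * logN Set.univ ![a, b, c]) := by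
  classical
  obtain ⟨ν, hν, h⟩ := Pool.Agent.X61.RI.fermat_ae K
  refine ⟨ν, hν, ?_⟩
  intro S₀ hS₀ τ κ hτ hκ Ω _ μ E hi hE
  filter_upwards [h hS₀.toFinset τ κ hτ hκ μ E hi hE] with ω hω
  obtain ⟨U, hU, hUU⟩ := hω
  have key : ∀ (n : ℕ) (x y : K), 4 ≤ n → x ≠ 0 → y ≠ 0 → x ^ n + y ^ n + 1 = 0 →
      κ * logN Set.univ ![x, y, 1] ≤ logN (S₀ ∪ {v | ω ∈ E v}) ![x, y, 1] → x ^ n ∈ U := by
    intro n x y hn hx hy hxy hl
    refine hUU n x y hn hx hy hxy ((large_iff hn hx hy hxy _ fun v => ?_).1 hl)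
    rw [Finset.mem_filter, Set.Finite.mem_toFinset]
    exact Iff.rfl
  have hfin := Pool.Agent.X61.RI.fermat_finite hU
  have hfin1 : {p : ℕ × K × K | 4 ≤ p.1 ∧ (p.2.1 ≠ 0 ∧ p.2.2 ≠ 0) ∧
        p.2.1 ^ p.1 + p.2.2 ^ p.1 + 1 = 0 ∧
        ¬ (RootOfUnity p.2.1 ∧ RootOfUnity p.2.2) ∧
        κ * logN Set.univ ![p.2.1, p.2.2, 1] ≤
          logN (S₀ ∪ {v | ω ∈ E v}) ![p.2.1, p.2.2, 1]}.Finite := by
    refine hfin.subset ?_
    rintro ⟨n, x, y⟩ ⟨hn, ⟨hx, hy⟩, hxy, hnr, hl⟩
    exact ⟨hn, ⟨hx, hy⟩, hxy, hnr, key n x y hn hx hy hxy hl⟩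
  refine ⟨hfin1, fun hK => ?_⟩
  obtain ⟨B, hB⟩ := (hfin1.image fun p => p.1).bddAbove
  refine ⟨max B 4, ?_⟩
  intro n hn a b c ha hb hc habc
  by_contra hcon
  have hl := not_lt.1 hcon
  have hn4 : 4 ≤ n := le_trans (le_max_right _ _) hn.le
  have hnB : B < n := lt_of_le_of_lt (le_max_left _ _) hn
  have hx : a / c ≠ 0 := div_ne_zero ha hc
  have hy : b / c ≠ 0 := div_ne_zero hb hc
  have hcn : c ^ n ≠ 0 := pow_ne_zero _ hc
  have hxy : (a / c) ^ n + (b / c) ^ n + 1 = 0 := by
    rw [div_pow, div_pow]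
    field_simp
    linear_combination habc
  have hl' : κ * logN Set.univ ![a / c, b / c, 1] ≤
      logN (S₀ ∪ {v | ω ∈ E v}) ![a / c, b / c, 1] := by
    unfold logN at hl ⊢
    rw [supp_scale hc]
    exact hl
  have hroot : RootOfUnity (a / c) ∧ RootOfUnity (b / c) := by
    by_contra hnr
    have h1 := hB (Set.mem_image_of_mem (fun p : ℕ × K × K => p.1)
      (show (n, a / c, b / c) ∈ _ from ⟨hn4, ⟨hx, hy⟩, hxy, hnr, hl'⟩))
    have h2 : n ≤ B := h1
    omega
  have hpow : ∀ {z : K}, RootOfUnity z → RootOfUnity (z ^ n) := by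
    rintro z ⟨k, hk, hz⟩
    exact ⟨k, hk, by rw [← pow_mul, mul_comm, pow_mul, hz, one_pow]⟩
  exact hK _ (Pool.Agent.X61.RI.cube_root (hpow hroot.1) (hpow hroot.2) hxy)

end Pool.Agent.Results.MP_ef6a16_nt.LargeRandomPart
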