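import Pool.Agent.X5.SDK.Ht
import Pool.Agent.W7.FH.Gm

/-!
Fermat's equation over number fields: solutions with small digits.

Let `K` be a number field of degree `d`, `β` an integer of `K`, and let `a = f(β)`, `b = g(β)`,
`c = h(β)` be nonzero integers of `K` written in base `β` with digits (coefficients of `f, g, h`) in
the ring of integers, the digits of each having sum of absolute values at most `H` at each infinite
place. If `|β| > 3 H ^ p` at each infinite place and `a ^ p + b ^ p + c ^ p = 0`, `p ≥ 3` odd, then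
all digit triples are proportional to one solution of height at most `H ^ d`. If moreover
`p ≥ 4 d ^ 2` is a prime, at least `5`, not dividing the discriminant of `K`, and
`a + b + c ≠ 0` or `K` has a real place, then `H ≥ p / 3`.
-/

set_option autoImplicit false

namespace Pool.Agent.Results.MP_ef6a16_nt.SmallDigits

open NumberField Polynomial

/-- sum of the absolute values of the digits at the infinite place `v` -/
noncomputable def digitSum {K : Type} [Field K] [NumberField K] (v : InfinitePlace K)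
    (f : (𝓞 K)[X]) : ℝ :=
  ∑ i ∈ Finset.range (f.natDegree + 1), v ((f.coeff i : 𝓞 K) : K)

theorem result (K : Type) [Field K] [NumberField K]
    (p : ℕ) (hp3 : 3 ≤ p) (hodd : Odd p) (β : 𝓞 K) (f g h : (𝓞 K)[X]) (H : ℝ)
    (hd : ∀ v : InfinitePlace K, digitSum v f ≤ H ∧ digitSum v g ≤ H ∧ digitSum v h ≤ H)
    (hb : ∀ v : InfinitePlace K, 3 * H ^ p < v (β : K))
    (hf : f.eval β ≠ 0) (hg : g.eval β ≠ 0) (hh : h.eval β ≠ 0)
    (he : f.eval β ^ p + g.eval β ^ p + h.eval β ^ p = 0) :
    (∃ (x y z : K) (w : K[X]), x ≠ 0 ∧ y ≠ 0 ∧ z ≠ 0 ∧ x ^ p + y ^ p + z ^ p = 0 ∧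
      (∀ i, ((f.coeff i : 𝓞 K) : K) = x * w.coeff i ∧ ((g.coeff i : 𝓞 K) : K) = y * w.coeff i ∧
        ((h.coeff i : 𝓞 K) : K) = z * w.coeff i) ∧
      Height.mulHeight ![x, y, z] ≤ H ^ Module.finrank ℚ K) ∧
    (p.Prime → 5 ≤ p → 4 * Module.finrank ℚ K ^ 2 ≤ p → ¬ (p : ℤ) ∣ NumberField.discr K →
      (f.eval β + g.eval β + h.eval β ≠ 0 ∨ ∃ v : InfinitePlace K, v.IsReal) →
      (p : ℝ) / 3 ≤ H) := by
  have hinj := FaithfulSMul.algebraMap_injective (𝓞 K) K
  have hds : ∀ (v : InfinitePlace K) (q : (𝓞 K)[X]),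
      Pool.Agent.X5.SDK.len v.1 (Pool.Agent.X5.SDK.mp q) = digitSum v q := by
    intro v q
    unfold Pool.Agent.X5.SDK.len digitSum
    rw [Pool.Agent.X5.SDK.mp, natDegree_map_eq_of_injective hinj]
    exact Finset.sum_congr rfl fun i _ => by rw [coeff_map]; rfl
  have hneg : Pool.Agent.X5.SDK.mp (-h) = -Pool.Agent.X5.SDK.mp h := Polynomial.map_neg _
  have he' : f.eval β ^ p + g.eval β ^ p = (-h).eval β ^ p := by
    rw [eval_neg, hodd.neg_pow]
    linear_combination he
  obtain ⟨x, y, z, w, hx, hy, hz, hxyz, e1, e2, e3, h1, h2⟩ :=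
    Pool.Agent.X5.SDK.fermat_main p hp3 β f g (-h) H (fun v => (hds v f).trans_le (hd v).1)
      (fun v => (hds v g).trans_le (hd v).2.1)
      (fun v => by
        rw [hneg, Pool.Agent.X5.SDK.len_neg]
        exact (hds v h).trans_le (hd v).2.2) hb
      hf hg (by rw [eval_neg]; exact neg_ne_zero.2 hh) he'
  have hc : ∀ (q : (𝓞 K)[X]) (t : K), Pool.Agent.X5.SDK.mp q = C t * w → ∀ i,
      ((q.coeff i : 𝓞 K) : K) = t * w.coeff i := by
    intro q t hq i
    rw [← coeff_C_mul, ← hq, Pool.Agent.X5.SDK.mp, coeff_map]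
  have e4 : Pool.Agent.X5.SDK.mp h = C (-z) * w := by
    rw [C_neg, neg_mul, ← e3, hneg, neg_neg]
  have hsign : ∀ u v t : K, Height.mulHeight ![u, v, -t] = Height.mulHeight ![u, v, t] := by
    intro u v t
    rcases eq_or_ne (![u, v, t]) 0 with h0 | h0
    · have ht : t = 0 := by simpa using congrFun h0 2
      rw [ht, neg_zero]
    · have h0' : ![u, v, -t] ≠ 0 := by
        intro h3
        apply h0
        have hu : u = 0 := by simpa using congrFun h3 0
        have hv : v = 0 := by simpa using congrFun h3 1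
        have ht : t = 0 := by simpa using congrFun h3 2
        rw [hu, hv, ht]
        funext j
        fin_cases j <;> rfl
      rw [NumberField.mulHeight_eq h0, NumberField.mulHeight_eq h0']
      congr 1
      · refine Finset.prod_congr rfl fun v' _ => ?_
        congr 2
        funext j
        fin_cases j
        · rfl
        · rfl
        · exact v'.1.map_neg t
      · refine finprod_congr fun v' => ?_
        congr 1
        funext j
        fin_cases j
        · rfl
        · rfl
        · exact v'.1.map_neg t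
  refine ⟨⟨x, y, -z, w, hx, hy, neg_ne_zero.2 hz, ?_,
    fun i => ⟨hc f x e1 i, hc g y e2 i, hc h (-z) e4 i⟩, by rw [hsign]; exact h1⟩, ?_⟩
  · rw [hodd.neg_pow, hxyz, add_neg_cancel]
  · intro hpp h5 hpd hdisc hs
    have hne : ∀ q : (𝓞 K)[X], q.eval β ≠ 0 → ((q.eval β : 𝓞 K) : K) ≠ 0 := by
      intro q hq h0
      exact hq (by exact_mod_cast h0)
    have heK : ((f.eval β : 𝓞 K) : K) ^ p + ((g.eval β : 𝓞 K) : K) ^ p +
        ((h.eval β : 𝓞 K) : K) ^ p = 0 := by
      exact_mod_cast congrArg (fun t : 𝓞 K => (t : K)) he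
    have hs' : ((f.eval β : 𝓞 K) : K) + ((g.eval β : 𝓞 K) : K) + ((h.eval β : 𝓞 K) : K) ≠ 0 := by
      rcases hs with hs | ⟨v, hv⟩
      · exact_mod_cast hs
      · exact Pool.Agent.W7.FH.sum_ne_zero_of_real (by omega) hodd v hv (hne f hf) (hne g hg)
          (hne h hh) heK
    have h3 := Pool.Agent.W7.FH.grunert_main hpp h5 hpd hdisc (hne f hf) (hne g hg) (hne h hh)
      heK hs'
    have h4 : ((h.eval β : 𝓞 K) : K) = -(((-h).eval β : 𝓞 K) : K) := by
      rw [eval_neg]
      push_cast
      ring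
    rw [h4, hsign, h2] at h3
    have hH0 : 0 ≤ H := by
      obtain ⟨v⟩ := (inferInstance : Nonempty (InfinitePlace K))
      exact (Finset.sum_nonneg fun i _ => v.1.nonneg _).trans (hd v).1
    exact le_of_pow_le_pow_left₀ Module.finrank_pos.ne' hH0 (h3.trans h1)

end Pool.Agent.Results.MP_ef6a16_nt.SmallDigits
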