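import Pool.Agent.X95T.JA1

/-!
# Small solutions of Fermat's equation over number fields

Let `K` be a number field of degree `d` and `a ^ n + b ^ n + c ^ n = 0` with `n` odd, `a, b, c ≠ 0`,
and let `H` be the (relative) height of `(a : b : c)`.

1. Let `T` be a finite set of prime ideals `q`, each of norm two, or with `n` prime to `N q (N q - 1)`
and `a, b, c` not all of the same valuation at `q`. Then the product of the `(N q) ^ n` over `T` is at
most `8 ^ d H ^ 3`, and each `(N q) ^ n` is at most `2 ^ d H`.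

2. If `n = p ≥ 5` is prime, `p ≥ 2 d` and `2 ^ d H < 2 ^ p`, then `(c + a) / (a + b) = u` and
`(b + c) / (a + b) = v` are units of `K` and `1 + u + v = 2 s` where `s` is divisible by `p` if `p` is
unramified and by all prime ideals `q` with `N q - 1 ∣ p - 1`.

Proof of 1: at `q` two of the numbers, say `a` and `b`, have the same valuation and `c` a larger one;
the residue field contains no `n`-th roots of unity besides `1`, so `-a / b` is `1` modulo `q`, and
`(-a / b) ^ n` is `1` modulo `q ^ n`; so `a + b` is divisible by `q ^ n`, and the claim follows from the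
product formula for `(a + b) (b + c) (c + a)`.
-/

set_option autoImplicit false

namespace Pool.Agent.Results.MP_ef6a16_nt.SmallSolutions

open NumberField IsDedekindDomain

theorem result (K : Type) [Field K] [NumberField K] (n : ℕ) (hn : Odd n) (a b c : K)
    (ha : a ≠ 0) (hb : b ≠ 0) (hc : c ≠ 0) (h : a ^ n + b ^ n + c ^ n = 0) :
    (∀ T : Finset (HeightOneSpectrum (𝓞 K)),
      (∀ q ∈ T, Ideal.absNorm q.asIdeal = 2 ∨
        (n.Coprime (Ideal.absNorm q.asIdeal * (Ideal.absNorm q.asIdeal - 1)) ∧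
          ¬ (q.valuation K a = q.valuation K b ∧ q.valuation K b = q.valuation K c))) →
      ∏ q ∈ T, (Ideal.absNorm q.asIdeal : ℝ) ^ n ≤
        8 ^ Module.finrank ℚ K * Height.mulHeight ![a, b, c] ^ 3 ∧
      ∀ q ∈ T, (Ideal.absNorm q.asIdeal : ℝ) ^ n ≤
        2 ^ Module.finrank ℚ K * Height.mulHeight ![a, b, c]) ∧
    (n.Prime → 5 ≤ n → 2 * Module.finrank ℚ K ≤ n →
      (2 : ℝ) ^ n ≤ 2 ^ Module.finrank ℚ K * Height.mulHeight ![a, b, c] ∨
      ∃ (u v : (𝓞 K)ˣ) (s : 𝓞 K), c + a = algebraMap (𝓞 K) K u * (a + b) ∧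
        b + c = algebraMap (𝓞 K) K v * (a + b) ∧
        a + b + c = algebraMap (𝓞 K) K s * (a + b) ∧ 1 + (u : 𝓞 K) + v = 2 * s ∧
        (¬ (n : ℤ) ∣ discr K → (n : 𝓞 K) ∣ s) ∧
        ∀ q : HeightOneSpectrum (𝓞 K), Ideal.absNorm q.asIdeal - 1 ∣ n - 1 → s ∈ q.asIdeal) := by
  refine ⟨fun T hT => X95T.FS.part_one' hn ha hb hc h T hT, fun hp h5 hd => ?_⟩
  rcases le_or_gt ((2 : ℝ) ^ n) (2 ^ Module.finrank ℚ K * Height.mulHeight ![a, b, c]) with h1 | h1
  · exact Or.inl h1
  · exact Or.inr (X95T.FS.part_two hp h5 hd ha hb hc h h1)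

end Pool.Agent.Results.MP_ef6a16_nt.SmallSolutions
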