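import Pool.Agent.X47.SR3

/-!
# Sophie Germain's theorem over number fields of any degree, by a ramified auxiliary prime

Let `p` be an odd prime and let `q` be an auxiliary prime for `p` in the sense of Sophie Germain; for
example `q = 2 p + 1`, if this is a prime. Let `K` be any number field of degree prime to `p`.

(1) If `q` is totally ramified in `K`, then the first case of Fermat's Last Theorem holds over `K` for
all exponents divisible by `p`.

(2) The same holds if `(q) = (Q Q') ^ e` with different primes `Q`, `Q'` of norm `q`, provided that the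
`p`-th roots of unity modulo `q` satisfy the condition `Separated`, for instance if `q = 2 p + 1` is
congruent to `2` or `3` modulo `5`.

There is no condition on the class group, the units, the real places and the primes above `2` or `p`
of `K`, and the degree may be even or odd.

Proof. Let `X ^ p + Y ^ p + Z ^ p = 0` in the integers of `K`, in the first case, not all divisible by
any one of the primes above `q`. The norms of `Y + Z` and of `(Y ^ p + Z ^ p) / (Y + Z)` are `p`-th powers
up to the norm `g` of the common divisor. If `q` is totally ramified, the norm of an element is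
modulo `q` the `m`-th power of its residue modulo `Q` (`m` is the degree of `K`), since the elements
of `Q` are nilpotent modulo `q`; in the second case it is the `e`-th power of the product of the two
residues (determinant of the multiplication on the product of `O / Q ^ e` and `O / Q' ^ e`). As `m` is
prime to `p`, the `p`-th power classes of the residues, or of the products of two residues, are
determined by the norms, and we are led to the relations for `K = ℚ`, or for a quadratic
field in which `q` splits.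
-/

set_option autoImplicit false

namespace Pool.Agent.Results.MP_ef6a16_nt.SophieGermainRamified

open NumberField IsDedekindDomain

/-- `a` is a `p`-th power modulo `q` (zero is one). -/
def IsPow {q : ℕ} (p : ℕ) (a : ZMod q) : Prop := ∃ t : ZMod q, t ^ p = a

/-- The two classical conditions of Sophie Germain for the auxiliary prime `q`: if
`a ^ p + b ^ p + c ^ p = 0` modulo `q` then one of `a`, `b`, `c` is zero modulo `q`, and `p` is not a
`p`-th power modulo `q`. -/
def Germain (p q : ℕ) : Prop :=
  (∀ a b c : ZMod q, a ^ p + b ^ p + c ^ p = 0 → a = 0 ∨ b = 0 ∨ c = 0) ∧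
    ¬ IsPow p (p : ZMod q)

/-- The condition for the second case: for all `p`-th roots of unity `u`, `v` modulo `q`, not
both equal to `1`, it is not the case that `u v` and `(1 - u) (1 - v)` are `p`-th powers, and it is not
the case that `(1 - u) / (u v)` and `(1 - v) / (u v)` are `p`-th powers and moreover `p (1 - v)` if
`u = 1` and `p (1 - u)` if `v = 1`. -/
def Separated (p q : ℕ) [Fact q.Prime] : Prop :=
  ∀ u v : ZMod q, u ^ p = 1 → v ^ p = 1 → (u ≠ 1 ∨ v ≠ 1) →
    ¬ (IsPow p (u * v) ∧ IsPow p ((1 - u) * (1 - v))) ∧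
    ¬ (IsPow p ((1 - u) / (u * v)) ∧ IsPow p ((1 - v) / (u * v)) ∧
      (u = 1 → IsPow p ((p : ZMod q) * (1 - v))) ∧ (v = 1 → IsPow p ((p : ZMod q) * (1 - u))))

/-- `q` is totally ramified in `K`: its ideal is a power with exponent the degree of `K`. -/
def TotallyRamified (K : Type) [Field K] [NumberField K] (q : ℕ) : Prop :=
  ∃ Q : Ideal (𝓞 K), Q ^ Module.finrank ℚ K = Ideal.span {((q : ℕ) : 𝓞 K)}

/-- `(q) = (Q Q') ^ e` with different ideals `Q`, `Q'` of norm `q` and `e` prime to `p`. -/
def TwoPrimes (K : Type) [Field K] [NumberField K] (p q : ℕ) : Prop :=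
  ∃ (Q Q' : Ideal (𝓞 K)) (e : ℕ), Q ≠ Q' ∧ Ideal.absNorm Q = q ∧ Ideal.absNorm Q' = q ∧
    (Q * Q') ^ e = Ideal.span {((q : ℕ) : 𝓞 K)} ∧ ¬ p ∣ e

/-- The first case over a number field `K`, with the auxiliary prime `q`; see the introduction. -/
theorem result (K : Type) [Field K] [NumberField K] (p q n : ℕ) [Fact q.Prime] (hp : p.Prime)
    (hp2 : p ≠ 2)
    (hcond : (TotallyRamified K q ∧ ¬ p ∣ Module.finrank ℚ K ∧ (q = 2 * p + 1 ∨ Germain p q)) ∨
      (TwoPrimes K p q ∧ (q = 2 * p + 1 ∧ (q % 5 = 2 ∨ q % 5 = 3) ∨ Germain p q ∧ Separated p q)))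
    (hn : p ∣ n)
    (x y z : K) (h : x ^ n + y ^ n = z ^ n) (hx : x ≠ 0) (hy : y ≠ 0) (hz : z ≠ 0) :
    ∃ v : HeightOneSpectrum (𝓞 K), ((p : ℕ) : 𝓞 K) ∈ v.asIdeal ∧
      ¬ (v.valuation K x = v.valuation K y ∧ v.valuation K y = v.valuation K z) := by
  by_contra hcon
  push Not at hcon
  obtain ⟨k, rfl⟩ := hn
  have hodd : Odd p := hp.odd_of_ne_two hp2
  have hF : (x ^ k) ^ p + (y ^ k) ^ p + (-z ^ k) ^ p = 0 := by
    rw [hodd.neg_pow, ← pow_mul, ← pow_mul, ← pow_mul, mul_comm k p, h]
    ring
  have hval : ∀ v : HeightOneSpectrum (𝓞 K), ((p : ℕ) : 𝓞 K) ∈ v.asIdeal →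
      v.valuation K (x ^ k) = v.valuation K (y ^ k) ∧
        v.valuation K (y ^ k) = v.valuation K (-z ^ k) := by
    intro v hv
    obtain ⟨h1, h2⟩ := hcon v hv
    rw [Valuation.map_neg, map_pow, map_pow, map_pow, h1, h2]
    exact ⟨rfl, rfl⟩
  rcases hcond with ⟨⟨Q, hQ⟩, hdeg, hc⟩ | ⟨⟨Q, Q', e, hne, hQ, hQ', he, hpe⟩, hc⟩
  · have hG : Y546.SG.Germ1 (ZMod q) p := by
      rcases hc with h1 | h1
      · exact X47.SR.germ hp hp2 h1
      · exact h1.1
    have hP : ¬ Y546.SG.IsPw p (p : ZMod q) := by
      rcases hc with h1 | h1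
      · exact X47.SR.not_pow hp hp2 h1
      · exact h1.2
    obtain ⟨ρ, hρ⟩ := X47.SR.residue rfl Q hQ
    exact X47.SR.main rfl hodd hp.one_lt ((hp.coprime_iff_not_dvd.2 hdeg).symm) ρ hρ hG hP
      (pow_ne_zero k hx) (pow_ne_zero k hy) (neg_ne_zero.2 (pow_ne_zero k hz)) hF hval
  · have hG : Y546.SG.Germ1 (ZMod q) p := by
      rcases hc with ⟨h1, -⟩ | ⟨h1, -⟩
      · exact X47.SR.germ hp hp2 h1
      · exact h1.1
    have hP : ¬ Y546.SG.IsPw p (p : ZMod q) := by
      rcases hc with ⟨h1, -⟩ | ⟨h1, -⟩
      · exact X47.SR.not_pow hp hp2 h1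
      · exact h1.2
    have hA : Y546.SG.Apart (ZMod q) p := by
      rcases hc with ⟨h1, h2⟩ | ⟨-, h2⟩
      · exact X47.SR.apart hp hp2 h1 h2
      · exact h2
    exact X47.SR.main2' hodd hp.one_lt ((hp.coprime_iff_not_dvd.2 hpe).symm) Q Q' hQ hQ' hne he
      hG hP hA (pow_ne_zero k hx) (pow_ne_zero k hy) (neg_ne_zero.2 (pow_ne_zero k hz)) hF hval

end Pool.Agent.Results.MP_ef6a16_nt.SophieGermainRamified
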